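import Mathlib
import Pool.Agent.Helper81.FE.Main

set_option autoImplicit false

/-!
Abc-triples with a prescribed entry `a` and with `c / rad (abc)` larger than every power of
`log c`, with a count and uniformly in `a`: for `X ≥ X₀` and `1 ≤ a ≤ (log X) ^ (1 / 200)` there
are at least `exp ((log log X)² / 1000)` integers `b > 0`, coprime to `a`, with `a + b ≤ X` and
`rad (a b (a + b)) * exp ((log log X)² / 1000) ≤ a + b`.

Method: `c = (a + Q) ∏ (1 + i A Q) ^ nᵢ` with a prime `Q`, `A = a lcm (1, …, s)` and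
`1 ≤ i ≤ s`, `c = a` modulo `Q ^ (2 s + 1)`.  The exponents `nᵢ` are combinations, with
coefficients below `Q ^ 2`, of explicit integer vectors `aᵢ + bᵢ A Q` of size `exp (O (s)) A Q`,
one for each `l ≤ s`, for which `∑ (aᵢ + bᵢ z) log (1 + i z)` vanishes to the exact order `2 l`
at `z = 0`.  Different start vectors give different `c`.
-/

namespace Pool.Agent.Results.MP_4ab349_nt.FixedEntryQuality

theorem result : ∃ X₀ : ℝ, ∀ X : ℝ, X₀ ≤ X → ∀ a : ℕ, 1 ≤ a →
    (a : ℝ) ≤ Real.log X ^ (1 / 200 : ℝ) →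
    Real.exp (Real.log (Real.log X) ^ 2 / 1000) ≤
      ({b : ℕ | 0 < b ∧ Nat.Coprime a b ∧ (a : ℝ) + b ≤ X ∧
        ((∏ p ∈ (a * b * (a + b)).primeFactors, p : ℕ) : ℝ) *
          Real.exp (Real.log (Real.log X) ^ 2 / 1000) ≤ (a : ℝ) + b}.ncard : ℝ) :=
  Pool.Agent.Helper81.FE.main_count

end Pool.Agent.Results.MP_4ab349_nt.FixedEntryQuality
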