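import Mathlib
import Pool.Agent.Helper44.RA.H4

/-!
# High abc triples are rare

Pairs `(a, b)` of coprime positive integers, `c = a + b`, radical = product of the distinct primes
dividing `a b c`.
-/

set_option autoImplicit false

open Finset

namespace Pool.Agent.Results.MP_4ab349_nt.HighTriples

/-- For all `κ, ε > 0` there is `C` such that for all integers `Z ≥ 1` and all real `L ≥ 1` the number
of pairs `(a, b)` of coprime positive integers with radical of `a b c` at most `Z` and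
`Z ^ κ ≤ log c ≤ L` (`c = a + b`) is finite and at most `C Z ^ (1 / 3 + ε) (1 + log L)`. -/
theorem result (κ : ℝ) (hκ : 0 < κ) (ε : ℝ) (hε : 0 < ε) :
    ∃ C : ℝ, ∀ (Z : ℕ) (L : ℝ), 1 ≤ Z → 1 ≤ L →
    {t : ℕ × ℕ | 0 < t.1 ∧ 0 < t.2 ∧ t.1.Coprime t.2 ∧
      (∏ p ∈ (t.1 * t.2 * (t.1 + t.2)).primeFactors, p) ≤ Z ∧
      (Z : ℝ) ^ κ ≤ Real.log ((t.1 + t.2 : ℕ) : ℝ) ∧
      Real.log ((t.1 + t.2 : ℕ) : ℝ) ≤ L}.Finite ∧
    (({t : ℕ × ℕ | 0 < t.1 ∧ 0 < t.2 ∧ t.1.Coprime t.2 ∧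
      (∏ p ∈ (t.1 * t.2 * (t.1 + t.2)).primeFactors, p) ≤ Z ∧
      (Z : ℝ) ^ κ ≤ Real.log ((t.1 + t.2 : ℕ) : ℝ) ∧
      Real.log ((t.1 + t.2 : ℕ) : ℝ) ≤ L}.ncard : ℕ) : ℝ) ≤
      C * (Z : ℝ) ^ (1 / 3 + ε) * (1 + Real.log L) := by
  obtain ⟨C, _, hC⟩ := Pool.RA.theoremA3 κ hκ ε hε
  refine ⟨C, fun Z L hZ hL => ?_⟩
  have hfin : {t : ℕ × ℕ | 0 < t.1 ∧ 0 < t.2 ∧ t.1.Coprime t.2 ∧
      (∏ p ∈ (t.1 * t.2 * (t.1 + t.2)).primeFactors, p) ≤ Z ∧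
      (Z : ℝ) ^ κ ≤ Real.log ((t.1 + t.2 : ℕ) : ℝ) ∧
      Real.log ((t.1 + t.2 : ℕ) : ℝ) ≤ L}.Finite := by
    set N : ℕ := ⌈Real.exp L⌉₊ with hN
    refine Set.Finite.subset
      (((Finset.range (N + 1)) ×ˢ (Finset.range (N + 1)) : Finset (ℕ × ℕ)).finite_toSet) ?_
    rintro t ⟨h1, h2, _, _, _, h5⟩
    have hpos : (0 : ℝ) < ((t.1 + t.2 : ℕ) : ℝ) := by
      have : 0 < t.1 + t.2 := by omega
      exact_mod_cast this
    have h6 : ((t.1 + t.2 : ℕ) : ℝ) ≤ Real.exp L := (Real.log_le_iff_le_exp hpos).1 h5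
    have h7 : t.1 + t.2 ≤ N := by
      have h8 : ((t.1 + t.2 : ℕ) : ℝ) ≤ (N : ℝ) := h6.trans (Nat.le_ceil _)
      exact_mod_cast h8
    simp only [Finset.coe_product, Finset.coe_range, Set.mem_prod, Set.mem_Iio]
    omega
  refine ⟨hfin, ?_⟩
  have h := hC Z L hZ hL hfin.toFinset (by
    intro t ht
    rw [Set.Finite.mem_toFinset] at ht
    obtain ⟨h1, h2, h3, h4, h5, h6⟩ := ht
    exact ⟨⟨h1, h2, h3, h4⟩, h5, h6⟩)
  rw [Set.ncard_eq_toFinset_card _ hfin]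
  exact h

end Pool.Agent.Results.MP_4ab349_nt.HighTriples
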